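import Mathlib

set_option autoImplicit false

namespace Pool.Agent.H514Z.HHH

open Module Equiv

variable (V : Type) [AddCommGroup V] [Module ℂ V]

/-- The tensor power of `V` with factors indexed by `ι`, as multilinear maps on `V*`. -/
abbrev Tens (ι : Type) : Type := MultilinearMap ℂ (fun _ : ι => Dual ℂ V) ℂ

/-- The action of `GL(V)` on tensors: `(g T)(α_1, ..., α_m) = T(α_1 ∘ g, ..., α_m ∘ g)`. -/
def act {ι : Type} (g : V ≃ₗ[ℂ] V) (T : Tens V ι) : Tens V ι :=
  T.compLinearMap (fun _ => (g : V →ₗ[ℂ] V).dualMap)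

/-- `S^d(S^n V)`: tensors with `d` blocks of `n` factors, symmetric inside each block and
symmetric under permutations of the blocks. -/
def symSym (d n : ℕ) : Set (Tens V (Fin d × Fin n)) :=
  {T | (∀ τ : Fin d → Perm (Fin n), T.domDomCongr (prodCongrRight τ) = T) ∧
    ∀ σ : Perm (Fin d), T.domDomCongr (prodCongr σ (Equiv.refl (Fin n))) = T}

/-- Regrouping `(V^{⊗ n})^{⊗ d} = (V^{⊗ d})^{⊗ n}`: the new block `j` collects the `j`-th factor
of each old block. -/
def regroup {d n : ℕ} (T : Tens V (Fin d × Fin n)) : Tens V (Fin n × Fin d) :=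
  T.domDomCongr (prodComm (Fin d) (Fin n))

/-- Symmetrisation inside each of the `n` blocks of `d` factors. -/
noncomputable def symIn {n d : ℕ} (U : Tens V (Fin n × Fin d)) : Tens V (Fin n × Fin d) :=
  ((d.factorial : ℂ) ^ n)⁻¹ • ∑ ρ : Fin n → Perm (Fin d), U.domDomCongr (prodCongrRight ρ)

/-- Symmetrisation over the `n` blocks. -/
noncomputable def symOut {n d : ℕ} (U : Tens V (Fin n × Fin d)) : Tens V (Fin n × Fin d) :=
  (n.factorial : ℂ)⁻¹ • ∑ σ : Perm (Fin n), U.domDomCongr (prodCongr σ (Equiv.refl (Fin d)))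

/-- The Hermite-Hadamard-Howe map `h_{d,n}`. -/
noncomputable def hhh {d n : ℕ} (T : Tens V (Fin d × Fin n)) : Tens V (Fin n × Fin d) :=
  symOut V (symIn V (regroup V T))

/-- For `V = ℂ^n` the module `S_{(d^n)} V` is the character `det^d`; this is its isotypic
component in `S^d(S^n V)`. -/
def rectIsotypic (d n : ℕ) : Set (Tens (Fin n → ℂ) (Fin d × Fin n)) :=
  {T | T ∈ symSym (Fin n → ℂ) d n ∧ ∀ g : (Fin n → ℂ) ≃ₗ[ℂ] (Fin n → ℂ),
    act (Fin n → ℂ) g T = (LinearMap.det (g : (Fin n → ℂ) →ₗ[ℂ] (Fin n → ℂ))) ^ d • T}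

end Pool.Agent.H514Z.HHH
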