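import Pool.Agent.H514Z.HHHDefs

set_option autoImplicit false

namespace Pool.Agent.H514Z.HHH

open Module Equiv Finset

def bv (b : Bool) : ℂ := if b then 1 else 0
def bw (b : Bool) : ℂ := if b then 1 else -1

lemma key {Q : Type} [Fintype Q] [DecidableEq Q] (φ : Q → Q) :
    ∑ t : Q → Bool, (∏ q, bw (t q)) * ∏ p, bv (t (φ p)) =
      if Function.Surjective φ then 1 else 0 := by
  have h1 : ∀ t : Q → Bool, ∏ p, bv (t (φ p)) =
      ∏ q, (if q ∈ univ.image φ then bv (t q) else 1) := by
    intro t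
    by_cases h : ∀ p, t (φ p) = true
    · rw [prod_eq_one (fun p _ => by simp [bv, h p]), prod_eq_one]
      intro q _
      split_ifs with hq
      · obtain ⟨p, -, rfl⟩ := mem_image.1 hq
        simp [bv, h p]
      · rfl
    · push Not at h
      obtain ⟨p, hp⟩ := h
      rw [prod_eq_zero (mem_univ p) (by simp [bv, hp]), prod_eq_zero (mem_univ (φ p))]
      rw [if_pos (mem_image_of_mem φ (mem_univ p))]
      simp [bv, hp]
  simp_rw [h1, ← prod_mul_distrib]
  have h2 := prod_univ_sum (fun _ : Q => (univ : Finset Bool))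
    (fun q b => bw b * (if q ∈ univ.image φ then bv b else 1))
  rw [Fintype.piFinset_univ] at h2
  rw [← h2]
  by_cases hs : Function.Surjective φ
  · rw [if_pos hs]
    apply prod_eq_one
    intro q _
    obtain ⟨p, rfl⟩ := hs q
    simp [bv, bw]
  · rw [if_neg hs]
    unfold Function.Surjective at hs
    push Not at hs
    obtain ⟨q, hq⟩ := hs
    apply prod_eq_zero (mem_univ q)
    have : q ∉ univ.image φ := by
      intro h
      obtain ⟨p, -, hp⟩ := mem_image.1 h
      exact hq p hp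
    simp only [this, if_false]
    simp [bw]

lemma polar {J I W : Type} [Fintype J] [DecidableEq J] [Fintype I] [DecidableEq I]
    [AddCommGroup W] [Module ℂ W] (U : MultilinearMap ℂ (fun _ : J × I => W) ℂ)
    (hU : ∀ l : J → W, U (fun p => l p.1) = 0) (β : J × I → W) :
    ∑ ρ : J → Perm I, U (fun p => β (p.1, ρ p.1 p.2)) = 0 := by
  have h0 : ∑ t : J × I → Bool, (∏ q, bw (t q)) *
      U (fun p => ∑ i, bv (t (p.1, i)) • β (p.1, i)) = 0 := by
    apply sum_eq_zero
    intro t _
    rw [hU (fun j => ∑ i, bv (t (j, i)) • β (j, i)), mul_zero]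
  have h1 : ∀ t : J × I → Bool, U (fun p => ∑ i, bv (t (p.1, i)) • β (p.1, i)) =
      ∑ r : J × I → I, (∏ p, bv (t (p.1, r p))) * U (fun p => β (p.1, r p)) := by
    intro t
    rw [U.map_sum (fun p i => bv (t (p.1, i)) • β (p.1, i))]
    apply sum_congr rfl
    intro r _
    rw [U.map_smul_univ (fun p => bv (t (p.1, r p))) (fun p => β (p.1, r p)), smul_eq_mul]
  simp_rw [h1, mul_sum, ← mul_assoc] at h0
  rw [sum_comm] at h0
  simp_rw [← sum_mul] at h0
  have h2 : ∀ r : J × I → I, ∑ t : J × I → Bool, (∏ q, bw (t q)) * ∏ p, bv (t (p.1, r p)) =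
      if Function.Surjective (fun p : J × I => (p.1, r p)) then 1 else 0 :=
    fun r => key (fun p : J × I => (p.1, r p))
  simp_rw [h2, ite_mul, one_mul, zero_mul] at h0
  rw [← sum_filter] at h0
  rw [← h0]
  refine sum_bij (fun ρ _ => fun p => ρ p.1 p.2) ?_ ?_ ?_ ?_
  · intro ρ _
    rw [mem_filter]
    refine ⟨mem_univ _, ?_⟩
    rintro ⟨j, i⟩
    exact ⟨(j, (ρ j).symm i), by simp⟩
  · intro ρ _ ρ' _ h
    funext j
    ext i
    exact congrFun h (j, i)
  · intro r hr
    have hs := (mem_filter.1 hr).2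
    have hb : ∀ j, Function.Bijective (fun i => r (j, i)) := by
      intro j
      apply Function.Surjective.bijective_of_finite
      intro i
      obtain ⟨⟨j', i'⟩, h⟩ := hs (j, i)
      simp only [Prod.mk.injEq] at h
      obtain ⟨rfl, h⟩ := h
      exact ⟨i', h⟩
    exact ⟨fun j => Equiv.ofBijective _ (hb j), mem_univ _, rfl⟩
  · intro ρ _
    rfl

/-- the value on `d` equal blocks vanishes when `d` is odd -/
lemma diag_zero {d n : ℕ} (hd : Odd d) (hn : 2 ≤ n) (T : Tens (Fin n → ℂ) (Fin d × Fin n))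
    (hT : T ∈ rectIsotypic d n) (l : Fin n → Dual ℂ (Fin n → ℂ)) :
    T (fun p => l p.2) = 0 := by
  obtain ⟨⟨h1, -⟩, h2⟩ := hT
  have hact : ∀ (g : (Fin n → ℂ) ≃ₗ[ℂ] (Fin n → ℂ)) (m : Fin n → Dual ℂ (Fin n → ℂ)),
      T (fun p => (m p.2).comp (g : (Fin n → ℂ) →ₗ[ℂ] (Fin n → ℂ))) =
        (LinearMap.det (g : (Fin n → ℂ) →ₗ[ℂ] (Fin n → ℂ))) ^ d * T (fun p => m p.2) := by
    intro g m
    exact DFunLike.congr_fun (h2 g) (fun p => m p.2)
  have hneg : ∀ x : ℂ, x = (-1) ^ d * x → x = 0 := by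
    intro x hx
    rw [hd.neg_one_pow] at hx
    linear_combination hx / 2
  let L : (Fin n → ℂ) →ₗ[ℂ] (Fin n → ℂ) := LinearMap.pi l
  by_cases hL : Function.Injective L
  · let g : (Fin n → ℂ) ≃ₗ[ℂ] (Fin n → ℂ) := LinearEquiv.ofInjectiveEndo L hL
    have e1 := hact g (fun j => LinearMap.proj j)
    have e2 : T (fun p => LinearMap.proj p.2) = 0 := by
      apply hneg
      let a : Fin n := ⟨0, by omega⟩
      let b : Fin n := ⟨1, by omega⟩
      have hab : a ≠ b := by simp [a, b]
      let s : (Fin n → ℂ) ≃ₗ[ℂ] (Fin n → ℂ) := LinearEquiv.funCongrLeft ℂ ℂ (swap a b)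
      have e3 := hact s (fun j => LinearMap.proj j)
      have e4 : LinearMap.det (s : (Fin n → ℂ) →ₗ[ℂ] (Fin n → ℂ)) = -1 := by
        rw [← LinearMap.det_toMatrix']
        have : LinearMap.toMatrix' (s : (Fin n → ℂ) →ₗ[ℂ] (Fin n → ℂ)) =
            (swap a b).permMatrix ℂ := by
          ext i j
          simp [s, LinearMap.toMatrix'_apply, Pi.single_apply, PEquiv.toMatrix_apply, eq_comm]
        rw [this, Matrix.det_permutation, Perm.sign_swap hab]
        simp
      rw [e4] at e3
      rw [← e3]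
      exact (DFunLike.congr_fun (h1 (fun _ => swap a b)) (fun p => LinearMap.proj p.2)).symm
    rw [e2, mul_zero] at e1
    exact e1
  · apply hneg
    rw [injective_iff_map_eq_zero] at hL
    push Not at hL
    obtain ⟨v, hv, hv0⟩ := hL
    obtain ⟨f, hf⟩ := Module.Projective.exists_dual_eq_one ℂ hv0
    have hf2 : (2 • f) v = 2 := by simp [hf]
    have e3 := hact (Module.reflection hf2) l
    have e4 : (Module.reflection hf2 : (Fin n → ℂ) →ₗ[ℂ] (Fin n → ℂ)) =
        LinearMap.transvection (-(2 • f)) v := by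
      apply LinearMap.ext
      intro x
      simp [Module.reflection_apply, LinearMap.transvection.apply, sub_eq_add_neg]
    have e5 : LinearMap.det (Module.reflection hf2 : (Fin n → ℂ) →ₗ[ℂ] (Fin n → ℂ)) = -1 := by
      rw [e4, LinearMap.transvection.det, LinearMap.neg_apply, hf2]
      norm_num
    rw [e5] at e3
    rw [← e3]
    congr 1
    funext p
    apply LinearMap.ext
    intro x
    have : l p.2 v = 0 := congrFun hv p.2
    simp [Module.reflection_apply, this]

theorem hhh_zero {d n : ℕ} (hd : Odd d) (hn : 2 ≤ n) (T : Tens (Fin n → ℂ) (Fin d × Fin n))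
    (hT : T ∈ rectIsotypic d n) : hhh (Fin n → ℂ) T = 0 := by
  have h : symIn (Fin n → ℂ) (regroup (Fin n → ℂ) T) = 0 := by
    ext β
    have := polar (regroup (Fin n → ℂ) T) (fun l => diag_zero hd hn T hT l) β
    simp only [symIn, smul_apply, _root_.sum_apply, zero_apply]
    rw [show (∑ ρ : Fin n → Perm (Fin d),
      ((regroup (Fin n → ℂ) T).domDomCongr (prodCongrRight ρ)) β) = 0 from this, smul_zero]
  rw [hhh, h]
  ext β
  simp [symOut]

end Pool.Agent.H514Z.HHH
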