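import Pool.Agent.H514Z.HHHCalc
import Pool.Agent.H514Z.HHHVanish

set_option autoImplicit false

namespace Pool.Agent.H514Z.HHH

open Module Equiv Finset

abbrev V4 : Type := Fin 4 → ℂ

/-- coordinates of a linear form -/
def coords : Dual ℂ V4 →ₗ[ℂ] (Fin 4 → ℂ) :=
  LinearMap.pi (fun l => LinearMap.applyₗ (Pi.single l 1 : V4))

lemma coords_apply (f : Dual ℂ V4) (l : Fin 4) : coords f l = f (Pi.single l 1) := rfl

noncomputable def detForm : MultilinearMap ℂ (fun _ : Fin 4 => Dual ℂ V4) ℂ :=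
  (Matrix.detRowAlternating (n := Fin 4) (R := ℂ)).toMultilinearMap.compLinearMap (fun _ => coords)

lemma detForm_apply (m : Fin 4 → Dual ℂ V4) :
    detForm m = Matrix.det (Matrix.of fun k l => m k (Pi.single l 1)) := rfl

def pos : (Σ _ : Fin 7, Fin 4) ≃ Fin 7 × Fin 4 where
  toFun x := (x.1 + off x.2, x.2)
  invFun p := ⟨p.1 - off p.2, p.2⟩
  left_inv x := by simp
  right_inv p := by simp

noncomputable def T0 : Tens V4 (Fin 7 × Fin 4) :=
  ((MultilinearMap.mkPiAlgebra ℂ (Fin 7) ℂ).compMultilinearMap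
    (N := fun (_ : Fin 7) (_ : Fin 4) => Dual ℂ V4) (fun _ => detForm)).domDomCongr pos

lemma T0_apply (α : Fin 7 × Fin 4 → Dual ℂ V4) :
    T0 α = ∏ c : Fin 7, detForm (fun k => α (c + off k, k)) := rfl

lemma detForm_comp (g : V4 →ₗ[ℂ] V4) (m : Fin 4 → Dual ℂ V4) :
    detForm (fun k => (m k).comp g) = LinearMap.det g * detForm m := by
  rw [detForm_apply, detForm_apply, ← LinearMap.det_toMatrix', mul_comm, ← Matrix.det_mul]
  congr 1
  ext k l
  simp only [Matrix.of_apply, LinearMap.comp_apply, Matrix.mul_apply, LinearMap.toMatrix'_apply]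
  conv_lhs => rw [pi_eq_sum_univ' (g (Pi.single l 1)), map_sum]
  apply sum_congr rfl
  intro j _
  rw [map_smul, smul_eq_mul, mul_comm]

section gen

variable {d n : ℕ}

noncomputable def symz (U : Tens (Fin n → ℂ) (Fin d × Fin n)) : Tens (Fin n → ℂ) (Fin d × Fin n) :=
  ∑ σ : Perm (Fin d), ∑ τ : Fin d → Perm (Fin n), U.domDomCongr (prodShear σ τ)

lemma symz_apply (U : Tens (Fin n → ℂ) (Fin d × Fin n)) (α : Fin d × Fin n → Dual ℂ (Fin n → ℂ)) :
    symz U α = ∑ σ : Perm (Fin d), ∑ τ : Fin d → Perm (Fin n),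
      U (fun p => α (σ p.1, τ p.1 p.2)) := by
  simp only [symz, _root_.sum_apply]
  rfl

lemma symz_mem (U : Tens (Fin n → ℂ) (Fin d × Fin n))
    (hU : ∀ (g : (Fin n → ℂ) →ₗ[ℂ] (Fin n → ℂ)) (α : Fin d × Fin n → Dual ℂ (Fin n → ℂ)),
      U (fun p => (α p).comp g) = LinearMap.det g ^ d * U α) :
    symz U ∈ rectIsotypic d n := by
  refine ⟨⟨?_, ?_⟩, ?_⟩
  · intro τ'
    ext α
    rw [MultilinearMap.domDomCongr_apply, symz_apply, symz_apply]
    apply sum_congr rfl
    intro σ _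
    exact Equiv.sum_comp (Equiv.mulLeft (fun i => τ' (σ i)))
      (fun τ : Fin d → Perm (Fin n) => U (fun p => α (σ p.1, τ p.1 p.2)))
  · intro σ'
    ext α
    rw [MultilinearMap.domDomCongr_apply, symz_apply, symz_apply]
    exact Equiv.sum_comp (Equiv.mulLeft σ')
      (fun σ : Perm (Fin d) => ∑ τ : Fin d → Perm (Fin n), U (fun p => α (σ p.1, τ p.1 p.2)))
  · intro g
    ext α
    rw [act, MultilinearMap.compLinearMap_apply, smul_apply, symz_apply, symz_apply, smul_eq_mul,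
      mul_sum]
    apply sum_congr rfl
    intro σ _
    rw [mul_sum]
    apply sum_congr rfl
    intro τ _
    exact hU _ (fun p => α (σ p.1, τ p.1 p.2))

lemma symz_const (U : Tens (Fin n → ℂ) (Fin d × Fin n)) (β : Fin d → Dual ℂ (Fin n → ℂ))
    (h : symz U = 0) : ∑ σ : Perm (Fin d), U (fun p => β (σ p.1)) = 0 := by
  have h1 : symz U (fun p => β p.1) = 0 := by rw [h]; rfl
  rw [symz_apply] at h1
  simp only [sum_const, nsmul_eq_mul] at h1
  rw [← mul_sum] at h1
  have : ((univ : Finset (Fin d → Perm (Fin n))).card : ℂ) ≠ 0 :=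
    Nat.cast_ne_zero.2 (card_ne_zero.2 univ_nonempty)
  exact (mul_eq_zero.1 h1).resolve_left this

end gen

lemma T1_mem : symz T0 ∈ rectIsotypic 7 4 := by
  apply symz_mem
  intro g α
  rw [T0_apply, T0_apply]
  have : ∀ c : Fin 7, detForm (fun k => (α (c + off k, k)).comp g) = LinearMap.det g *
        detForm (fun k => α (c + off k, k)) :=
    fun c => detForm_comp _ _
  rw [prod_congr rfl (fun c _ => this c), prod_mul_distrib, prod_const, card_univ,
    Fintype.card_fin]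

noncomputable def PD (i : Fin 7) : Dual ℂ V4 := ∑ l : Fin 4, (PM i l : ℂ) • LinearMap.proj l

lemma PD_apply (i : Fin 7) (l : Fin 4) : PD i (Pi.single l 1) = (PM i l : ℂ) := by
  simp [PD, Pi.single_apply]

lemma detForm_PD (s : Fin 4 → Fin 7) :
    detForm (fun k => PD (s k)) = (look (s 0) (s 1) (s 2) (s 3) : ℂ) := by
  rw [detForm_apply, ← look_eq]
  simp only [PD_apply]
  simp [Matrix.det_succ_row_zero, Fin.sum_univ_succ, det4, Fin.succAbove]
  ring

lemma T1_ne : symz T0 ≠ 0 := by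
  intro h
  have h1 := symz_const T0 PD h
  have h2 : ∀ σ : Perm (Fin 7), T0 (fun p => PD (σ p.1)) =
      (term (σ 0) (σ 1) (σ 2) (σ 3) (σ 4) (σ 5) (σ 6) : ℂ) := by
    intro σ
    rw [T0_apply]
    have : ∀ c : Fin 7, detForm (fun k => PD (σ (c + off k))) =
        (look (σ (c + 2)) (σ (c + 4)) (σ (c + 5)) (σ (c + 6)) : ℂ) :=
      fun c => detForm_PD (fun k => σ (c + off k))
    rw [prod_congr rfl (fun c _ => this c), Fin.prod_univ_seven, term]
    push_cast
    rfl
  rw [sum_congr rfl (fun σ _ => h2 σ), ← Int.cast_sum, total] at h1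
  norm_num at h1

end Pool.Agent.H514Z.HHH
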