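import Mathlib

set_option autoImplicit false

namespace Pool.Agent.H514Z.Pairs

open Finset

section

variable {V : Type} [Fintype V] [DecidableEq V]

/-- the colouring `c` respects the constraints `R` among the vertices of `L` -/
def Good (R : V → V → Bool) (L : List V) {k : ℕ} (c : V → Fin k) : Prop :=
  ∀ u ∈ L, ∀ w ∈ L, R u w = true → c u ≠ c w

instance (R : V → V → Bool) (L : List V) {k : ℕ} (c : V → Fin k) : Decidable (Good R L c) := by
  unfold Good; infer_instance

def N (R : V → V → Bool) (L : List V) (k : ℕ) : ℕ :=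
  (univ.filter (fun c : V → Fin k => Good R L c)).card

def nb (R : V → V → Bool) (v : V) (L : List V) : Finset V :=
  L.toFinset.filter (fun u => (R v u || R u v) = true)

omit [Fintype V] in
lemma good_cons {R : V → V → Bool} {v : V} {L : List V} (hvv : R v v = false) {k : ℕ}
    (c : V → Fin k) : Good R (v :: L) c ↔ Good R L c ∧ c v ∉ (nb R v L).image c := by
  constructor
  · intro h
    refine ⟨fun u hu w hw => h u (List.mem_cons_of_mem _ hu) w (List.mem_cons_of_mem _ hw), ?_⟩
    intro hm
    obtain ⟨u, hu, huv⟩ := mem_image.1 hm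
    simp only [nb, mem_filter, List.mem_toFinset, Bool.or_eq_true] at hu
    rcases hu.2 with h1 | h1
    · exact h v List.mem_cons_self u (List.mem_cons_of_mem _ hu.1) h1 huv.symm
    · exact h u (List.mem_cons_of_mem _ hu.1) v List.mem_cons_self h1 huv
  · rintro ⟨h1, h2⟩ u hu w hw huw
    rcases List.mem_cons.1 hu with rfl | hu'
    · rcases List.mem_cons.1 hw with rfl | hw'
      · rw [hvv] at huw; exact absurd huw (by simp)
      · intro he
        apply h2
        refine mem_image.2 ⟨w, ?_, he.symm⟩
        simp [nb, hw', huw]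
    · rcases List.mem_cons.1 hw with rfl | hw'
      · intro he
        apply h2
        refine mem_image.2 ⟨u, ?_, he⟩
        simp [nb, hu', huw]
      · exact h1 u hu' w hw' huw

omit [Fintype V] in
lemma good_update {R : V → V → Bool} {v : V} {L : List V} (hv : v ∉ L) {k : ℕ}
    (c : V → Fin k) (a : Fin k) : Good R L (Function.update c v a) ↔ Good R L c := by
  have h : ∀ u ∈ L, Function.update c v a u = c u := fun u hu =>
    Function.update_of_ne (fun e : u = v => hv (e ▸ hu)) _ _
  constructor
  · intro H u hu w hw huw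
    have := H u hu w hw huw
    rwa [h u hu, h w hw] at this
  · intro H u hu w hw huw
    rw [h u hu, h w hw]
    exact H u hu w hw huw

omit [Fintype V] in
lemma image_update {R : V → V → Bool} {v : V} {L : List V} (hv : v ∉ L) {k : ℕ}
    (c : V → Fin k) (a : Fin k) :
    (nb R v L).image (Function.update c v a) = (nb R v L).image c := by
  apply image_congr
  intro u hu
  have hu' : u ∈ L := by
    simp only [nb, coe_filter, List.mem_toFinset, Set.mem_ofPred_eq] at hu
    exact hu.1
  exact Function.update_of_ne (fun e : u = v => hv (e ▸ hu')) _ _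

lemma step {R : V → V → Bool} {v : V} {L : List V} (hv : v ∉ L) (hvv : R v v = false)
    (hcl : ∀ u ∈ nb R v L, ∀ w ∈ nb R v L, u ≠ w → R u w = true) (k : ℕ) :
    N R (v :: L) k * k = N R L k * (k - (nb R v L).card) := by
  have e1 : N R (v :: L) k * k =
      ((univ.filter (fun c : V → Fin k => Good R (v :: L) c)) ×ˢ (univ : Finset (Fin k))).card := by
    rw [card_product, card_univ, Fintype.card_fin]; rfl
  have e2 : N R L k * (k - (nb R v L).card) =
      ((univ.filter (fun c : V → Fin k => Good R L c)).sigma
        (fun c => ((nb R v L).image c)ᶜ)).card := by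
    rw [card_sigma, N, ← smul_eq_mul, ← sum_const]
    apply sum_congr rfl
    intro c hc
    rw [card_compl, Fintype.card_fin, card_image_of_injOn]
    intro u hu w hw huw
    by_contra hne
    have hg : Good R L c := (mem_filter.1 hc).2
    have hu' : u ∈ L := by
      simp only [nb, coe_filter, List.mem_toFinset, Set.mem_ofPred_eq] at hu
      exact hu.1
    have hw' : w ∈ L := by
      simp only [nb, coe_filter, List.mem_toFinset, Set.mem_ofPred_eq] at hw
      exact hw.1
    exact hg u hu' w hw' (hcl u hu w hw hne) huw
  rw [e1, e2]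
  refine card_nbij' (fun p => ⟨Function.update p.1 v p.2, p.1 v⟩)
    (fun q => (Function.update q.1 v q.2, q.1 v)) ?_ ?_ ?_ ?_
  · rintro ⟨c, a⟩ hp
    simp only [coe_product, coe_filter, mem_univ, true_and, coe_univ, Set.mem_prod,
      Set.mem_ofPred_eq, Set.mem_univ, and_true] at hp
    rw [good_cons hvv] at hp
    simp only [coe_sigma, coe_filter, mem_univ, true_and, Set.mem_sigma_iff, Set.mem_ofPred_eq,
      mem_coe, mem_compl]
    rw [good_update hv, image_update hv]
    exact hp
  · rintro ⟨c, a⟩ hq
    simp only [coe_sigma, coe_filter, mem_univ, true_and, Set.mem_sigma_iff, Set.mem_ofPred_eq,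
      mem_coe, mem_compl] at hq
    simp only [coe_product, coe_filter, mem_univ, true_and, coe_univ, Set.mem_prod,
      Set.mem_ofPred_eq, Set.mem_univ, and_true]
    rw [good_cons hvv, good_update hv, image_update hv, Function.update_self]
    exact hq
  · rintro ⟨c, a⟩ _
    simp
  · rintro ⟨c, a⟩ _
    simp

def ok (R : V → V → Bool) : List V → Bool
  | [] => true
  | v :: L => decide (v ∉ L) && !(R v v) &&
      decide (∀ u ∈ nb R v L, ∀ w ∈ nb R v L, u ≠ w → R u w = true) && ok R L

def degs (R : V → V → Bool) : List V → List ℕ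
  | [] => []
  | v :: L => (nb R v L).card :: degs R L

lemma count_aux {R : V → V → Bool} (k : ℕ) : ∀ L : List V, ok R L = true →
    N R L k * k ^ L.length = k ^ Fintype.card V * ((degs R L).map (fun d => k - d)).prod
  | [], _ => by
    have : N R [] k = k ^ Fintype.card V := by
      unfold N
      rw [filter_true_of_mem (fun c _ => by intro u hu; simp at hu)]
      simp
    simp [this, degs]
  | v :: L, h => by
    simp only [ok, Bool.and_eq_true, decide_eq_true_eq, Bool.not_eq_eq_eq_not, Bool.not_true] at h
    obtain ⟨⟨⟨h1, h2⟩, h3⟩, h4⟩ := h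
    have ih := count_aux k L h4
    have hs := step h1 h2 h3 k
    simp only [degs, List.length_cons, List.map_cons, List.prod_cons]
    calc N R (v :: L) k * k ^ (L.length + 1) = (N R (v :: L) k * k) * k ^ L.length := by ring
      _ = (N R L k * k ^ L.length) * (k - (nb R v L).card) := by rw [hs]; ring
      _ = _ := by rw [ih]; ring

lemma count {R : V → V → Bool} (k : ℕ) (L : List V) (h : ok R L = true)
    (hall : ∀ v, v ∈ L) (hlen : L.length = Fintype.card V) (hne : L ≠ []) :
    Nat.card {c : V → Fin k // ∀ u w, R u w = true → c u ≠ c w} =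
      ((degs R L).map (fun d => k - d)).prod := by
  have e : Nat.card {c : V → Fin k // ∀ u w, R u w = true → c u ≠ c w} = N R L k := by
    rw [Nat.card_eq_fintype_card, Fintype.card_subtype, N]
    congr 1
    apply filter_congr
    intro c _
    exact ⟨fun H u _ w _ => H u w, fun H u w => H u (hall u) w (hall w)⟩
  rw [e]
  rcases Nat.eq_zero_or_pos k with rfl | hk
  · obtain ⟨v, L', rfl⟩ := List.exists_cons_of_ne_nil hne
    have : IsEmpty (V → Fin 0) := ⟨fun c => (c v).elim0⟩
    simp [N, degs]
  · have := count_aux k L h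
    rw [hlen, mul_comm] at this
    exact Nat.eq_of_mul_eq_mul_left (pow_pos hk _) this

/-- the graph with a second copy `none` of the vertex `v`, adjacent to `v` -/
def twin (R : V → V → Bool) (v : V) : Option V → Option V → Bool
  | some a, some b => R a b
  | none, some b => R v b || decide (b = v)
  | some a, none => R a v || decide (a = v)
  | none, none => false

omit [Fintype V] [DecidableEq V] in
lemma col_card (G : SimpleGraph V) (R : V → V → Bool) (hR : ∀ u w, G.Adj u w ↔ R u w = true)
    (k : ℕ) : Nat.card (G.Coloring (Fin k)) =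
      Nat.card {c : V → Fin k // ∀ u w, R u w = true → c u ≠ c w} := by
  refine Nat.card_congr ⟨fun c => ⟨c, fun u w h => c.valid ((hR u w).2 h)⟩,
    fun c => SimpleGraph.Coloring.mk c.1 (fun {u w} h => c.2 u w ((hR u w).1 h)), ?_, ?_⟩
  · intro c; rfl
  · intro c; rfl

lemma pair_card (G : SimpleGraph V) (R : V → V → Bool) (hR : ∀ u w, G.Adj u w ↔ R u w = true)
    (k : ℕ) :
    Nat.card {p : G.Coloring (Fin k) × G.Coloring (Fin k) //
        Nat.card {v : V // p.1 v ≠ p.2 v} = 1} =
      ∑ v : V, Nat.card {h : Option V → Fin k // ∀ a b, twin R v a b = true → h a ≠ h b} := by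
  rw [← Nat.card_sigma]
  symm
  have hirr : ∀ u, R u u = true → False := fun u h => G.irrefl ((hR u u).2 h)
  let F : (Σ v : V, {h : Option V → Fin k // ∀ a b, twin R v a b = true → h a ≠ h b}) →
      {p : G.Coloring (Fin k) × G.Coloring (Fin k) // Nat.card {v : V // p.1 v ≠ p.2 v} = 1} :=
    fun x => ⟨(SimpleGraph.Coloring.mk (fun u => x.2.1 (some u))
        (fun {u w} h => x.2.2 (some u) (some w) ((hR u w).1 h)),
      SimpleGraph.Coloring.mk (Function.update (fun u => x.2.1 (some u)) x.1 (x.2.1 none)) (by
        intro u w h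
        have h' := (hR u w).1 h
        by_cases hu : u = x.1
        · have hw : w ≠ x.1 := fun e => hirr u (by rw [e, ← hu] at h'; exact h')
          rw [hu, Function.update_self, Function.update_of_ne hw]
          apply x.2.2 none (some w)
          simp [twin, ← hu, h']
        · rw [Function.update_of_ne hu]
          by_cases hw : w = x.1
          · rw [hw, Function.update_self]
            apply x.2.2 (some u) none
            simp [twin, ← hw, h']
          · rw [Function.update_of_ne hw]
            exact x.2.2 (some u) (some w) h')), by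
      rw [Nat.card_eq_one_iff_exists]
      refine ⟨⟨x.1, ?_⟩, ?_⟩
      · show x.2.1 (some x.1) ≠ Function.update (fun u => x.2.1 (some u)) x.1 (x.2.1 none) x.1
        rw [Function.update_self]
        apply x.2.2 (some x.1) none
        simp [twin]
      · rintro ⟨y, hy⟩
        apply Subtype.ext
        by_contra hne
        apply hy
        show x.2.1 (some y) = Function.update (fun u => x.2.1 (some u)) x.1 (x.2.1 none) y
        rw [Function.update_of_ne hne]⟩
  apply Nat.card_eq_of_bijective F
  constructor
  · rintro ⟨v, h, hh⟩ ⟨v', h', hh'⟩ e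
    have e1 : ∀ u, h (some u) = h' (some u) := fun u =>
      congrArg (fun p => p.1.1 u) e
    have e2 : ∀ u, Function.update (fun u => h (some u)) v (h none) u =
        Function.update (fun u => h' (some u)) v' (h' none) u := fun u =>
      congrArg (fun p => p.1.2 u) e
    have hv : v = v' := by
      by_contra hne
      have := e2 v
      rw [Function.update_self, Function.update_of_ne hne, ← e1] at this
      exact hh none (some v) (by simp [twin]) this
    subst hv
    have hn : h none = h' none := by
      have := e2 v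
      rwa [Function.update_self, Function.update_self] at this
    have : h = h' := by
      funext a
      cases a with
      | none => exact hn
      | some u => exact e1 u
    subst this
    rfl
  · rintro ⟨⟨c, c'⟩, hp⟩
    obtain ⟨⟨v, hv⟩, huniq⟩ := Nat.card_eq_one_iff_exists.1 hp
    have hsame : ∀ u, u ≠ v → c u = c' u := by
      intro u hu
      by_contra hne
      exact hu (congrArg Subtype.val (huniq ⟨u, hne⟩))
    refine ⟨⟨v, fun a => Option.elim a (c' v) c, ?_⟩, ?_⟩
    · intro a b hab
      cases a with
      | none =>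
        cases b with
        | none => simp [twin] at hab
        | some b =>
          simp only [twin, Bool.or_eq_true, decide_eq_true_eq] at hab
          show c' v ≠ c b
          rcases hab with h1 | h1
          · have hb : b ≠ v := fun e => hirr v (by rw [e] at h1; exact h1)
            rw [hsame b hb]
            exact c'.valid ((hR _ _).2 h1)
          · rw [h1]; exact fun e => hv e.symm
      | some a =>
        cases b with
        | none =>
          simp only [twin, Bool.or_eq_true, decide_eq_true_eq] at hab
          show c a ≠ c' v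
          rcases hab with h1 | h1
          · have hb : a ≠ v := fun e => hirr v (by rw [e] at h1; exact h1)
            rw [hsame a hb]
            exact c'.valid ((hR _ _).2 h1)
          · rw [h1]; exact hv
        | some b => exact c.valid ((hR _ _).2 hab)
    · apply Subtype.ext
      apply Prod.ext
      · rfl
      · apply DFunLike.ext
        intro u
        show Function.update (fun u => c u) v (c' v) u = c' u
        by_cases hu : u = v
        · rw [hu, Function.update_self]
        · rw [Function.update_of_ne hu, hsame u hu]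

end

/-- two disjoint diamonds -/
def E1 : List (Fin 8 × Fin 8) :=
  [(0,1),(0,2),(1,2),(0,3),(1,3),(4,5),(4,6),(5,6),(4,7),(5,7)]

/-- `K_4` on `0,1,2,3`, a vertex `4` joined to `0,1`, leaves `5` at `0` and `6` at `1`, and the
isolated vertex `7` -/
def E2 : List (Fin 8 × Fin 8) :=
  [(0,1),(0,2),(0,3),(1,2),(1,3),(2,3),(0,4),(1,4),(0,5),(1,6)]

def rel (E : List (Fin 8 × Fin 8)) (u w : Fin 8) : Bool :=
  decide ((u, w) ∈ E) || decide ((w, u) ∈ E)

def G1 : SimpleGraph (Fin 8) where
  Adj u w := rel E1 u w = true
  symm := ⟨by decide⟩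
  loopless := ⟨by decide⟩

def G2 : SimpleGraph (Fin 8) where
  Adj u w := rel E2 u w = true
  symm := ⟨by decide⟩
  loopless := ⟨by decide⟩

def L0 : List (Fin 8) := [7, 6, 5, 4, 3, 2, 1, 0]

def LT (v : Fin 8) : List (Option (Fin 8)) :=
  L0.flatMap (fun u => if u = v then [none, some u] else [some u])

lemma twin_count (E : List (Fin 8 × Fin 8)) (k : ℕ)
    (h : ∀ v, ok (twin (rel E) v) (LT v) = true) (v : Fin 8) :
    Nat.card {h : Option (Fin 8) → Fin k // ∀ a b, twin (rel E) v a b = true → h a ≠ h b} =
      ((degs (twin (rel E) v) (LT v)).map (fun d => k - d)).prod := by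
  apply count k (LT v) (h v)
  · revert v; decide
  · revert v; decide
  · revert v; decide

lemma ok1 : ∀ v, ok (twin (rel E1) v) (LT v) = true := by decide +kernel
lemma ok2 : ∀ v, ok (twin (rel E2) v) (LT v) = true := by decide +kernel

lemma degs1 : (List.finRange 8).map (fun v => degs (twin (rel E1) v) (LT v)) =
    [[2, 2, 1, 0, 3, 3, 2, 1, 0], [2, 2, 1, 0, 3, 3, 2, 1, 0], [2, 2, 1, 0, 2, 3, 2, 1, 0],
      [2, 2, 1, 0, 3, 2, 2, 1, 0], [3, 3, 2, 1, 0, 2, 2, 1, 0], [3, 3, 2, 1, 0, 2, 2, 1, 0],
      [2, 3, 2, 1, 0, 2, 2, 1, 0], [3, 2, 2, 1, 0, 2, 2, 1, 0]] := by decide +kernel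

lemma degs2 : (List.finRange 8).map (fun v => degs (twin (rel E2) v) (LT v)) =
    [[0, 1, 2, 3, 4, 3, 2, 1, 0], [0, 2, 1, 3, 4, 3, 2, 1, 0], [0, 1, 1, 2, 4, 3, 2, 1, 0],
      [0, 1, 1, 2, 4, 3, 2, 1, 0], [0, 1, 1, 3, 2, 3, 2, 1, 0], [0, 1, 2, 1, 2, 3, 2, 1, 0],
      [0, 2, 1, 1, 2, 3, 2, 1, 0], [1, 0, 1, 1, 2, 3, 2, 1, 0]] := by decide +kernel

lemma sum_form (E : List (Fin 8 × Fin 8)) (k : ℕ) :
    ∑ v : Fin 8, ((degs (twin (rel E) v) (LT v)).map (fun d => k - d)).prod =
      (((List.finRange 8).map (fun v => degs (twin (rel E) v) (LT v))).map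
        (fun l => (l.map (fun d => k - d)).prod)).sum := by
  rw [List.map_map, Fin.sum_univ_def]
  rfl

theorem pairs_eq (k : ℕ) :
    Nat.card {p : G1.Coloring (Fin k) × G1.Coloring (Fin k) //
        Nat.card {v : Fin 8 // p.1 v ≠ p.2 v} = 1} =
      Nat.card {p : G2.Coloring (Fin k) × G2.Coloring (Fin k) //
        Nat.card {v : Fin 8 // p.1 v ≠ p.2 v} = 1} := by
  rw [pair_card G1 (rel E1) (fun _ _ => Iff.rfl), pair_card G2 (rel E2) (fun _ _ => Iff.rfl),
    sum_congr rfl (fun v _ => twin_count E1 k ok1 v),
    sum_congr rfl (fun v _ => twin_count E2 k ok2 v), sum_form, sum_form, degs1, degs2]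
  simp only [List.map_cons, List.map_nil, List.prod_cons, List.prod_nil, List.sum_cons,
    List.sum_nil]
  rcases Nat.lt_or_ge k 4 with hk | hk
  · interval_cases k <;> norm_num
  · obtain ⟨j, rfl⟩ := Nat.exists_eq_add_of_le' hk
    have h1 : j + 4 - 1 = j + 3 := by omega
    have h2 : j + 4 - 2 = j + 2 := by omega
    have h3 : j + 4 - 3 = j + 1 := by omega
    have h4 : j + 4 - 4 = j := by omega
    rw [h1, h2, h3, h4, Nat.sub_zero]
    ring

theorem cols_ne : Nat.card (G1.Coloring (Fin 3)) ≠ Nat.card (G2.Coloring (Fin 3)) := by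
  rw [col_card G1 (rel E1) (fun _ _ => Iff.rfl), col_card G2 (rel E2) (fun _ _ => Iff.rfl),
    count 3 L0 (by decide +kernel) (by decide) (by decide) (by decide),
    count 3 L0 (by decide +kernel) (by decide) (by decide) (by decide)]
  decide +kernel

end Pool.Agent.H514Z.Pairs
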