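import Pool.Agent.Helper723.Egg7

set_option autoImplicit false

namespace Pool.Agent.H514Z.SemiEggert

open Module
open scoped Pointwise

section prime

variable (F : Type) [Field F] {N : Type} [CommMonoid N]

/-- the element `x - z` of the monoid algebra -/
noncomputable def f (z x : N) : MonoidAlgebra F N :=
  MonoidAlgebra.single x 1 - MonoidAlgebra.single z 1

variable {F}

lemma single_mul_f {z : N} (hz : ∀ x, x * z = z) (a x : N) :
    MonoidAlgebra.single a (1 : F) * f F z x = f F z (a * x) := by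
  simp only [f, mul_sub, MonoidAlgebra.single_mul_single, hz, mul_one]

lemma f_mul_f {z : N} (hz : ∀ x, x * z = z) (a x : N) :
    f F z a * f F z x = f F z (a * x) := by
  have h1 : f F z a * f F z x = MonoidAlgebra.single a (1 : F) * f F z x -
      MonoidAlgebra.single z (1 : F) * f F z x := by
    rw [← sub_mul]; rfl
  rw [h1, single_mul_f hz, single_mul_f hz, mul_comm z x, hz]
  simp [f]

lemma f_pow {z : N} (hz : ∀ x, x * z = z) (x : N) (j : ℕ) :
    f F z x ^ (j + 1) = f F z (x ^ (j + 1)) := by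
  induction j with
  | zero => simp
  | succ j ih => rw [pow_succ, ih, f_mul_f hz, ← pow_succ]

lemma f_self (z : N) : f F z z = 0 := by simp [f]

lemma f_indep (z : N) (U : Set N) (hU : z ∉ U) :
    LinearIndependent F (fun x : U => f F z x.1) := by
  classical
  rw [linearIndependent_iff']
  intro s g h j hj
  have h1 := congrArg (fun y : MonoidAlgebra F N => y.coeff j.1) h
  have hjz : z ≠ j.1 := fun e => hU (e ▸ j.2)
  simp only [f, MonoidAlgebra.coeff_sum, Finsupp.finsetSum_apply, MonoidAlgebra.coeff_smul_apply,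
    MonoidAlgebra.coeff_sub, MonoidAlgebra.coeff_single, Finsupp.sub_apply,
    Finsupp.single_eq_of_ne' hjz, sub_zero, MonoidAlgebra.coeff_zero, Finsupp.zero_apply] at h1
  rw [Finset.sum_eq_single j] at h1
  · simpa using h1
  · intro b _ hb
    rw [Finsupp.single_eq_of_ne' (fun e => hb (Subtype.ext e)), smul_zero]
  · intro h; exact absurd hj h

lemma prime_ideal (p : ℕ) [hp : Fact p.Prime] [Finite N] (z : N) (hz : ∀ x, x * z = z)
    (T : Set N) (hT : ∀ x, ∀ t ∈ T, x * t ∈ T) (k : ℕ)
    (hk : ∀ l : List N, l.length = k → (∀ x ∈ l, x ∈ T) → l.prod = z) :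
    p * (((fun x => x ^ p) '' T) \ {z}).ncard ≤ (T \ {z}).ncard := by
  classical
  let A := MonoidAlgebra (ZMod p) N
  have : FiniteDimensional (ZMod p) A :=
    Module.Finite.equiv (MonoidAlgebra.coeffLinearEquiv (ZMod p) (S := ZMod p) (M := N)).symm
  let J : Ideal A := Ideal.span (f (ZMod p) z '' T)
  have hpow : ∀ j : ℕ, ∀ a ∈ (f (ZMod p) z '' T) ^ (j + 1),
      ∃ l : List N, l.length = j + 1 ∧ (∀ x ∈ l, x ∈ T) ∧ a = f (ZMod p) z l.prod := by
    intro j
    induction j with
    | zero =>
      intro a ha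
      rw [zero_add, pow_one] at ha
      obtain ⟨t, ht, rfl⟩ := ha
      exact ⟨[t], rfl, by simpa using ht, by simp⟩
    | succ j ih =>
      intro a ha
      rw [pow_succ'] at ha
      obtain ⟨b, ⟨t, ht, rfl⟩, c, hc, rfl⟩ := ha
      obtain ⟨l, h1, h2, rfl⟩ := ih c hc
      refine ⟨t :: l, by simp [h1], ?_, ?_⟩
      · intro x hx
        rcases List.mem_cons.1 hx with rfl | hx
        · exact ht
        · exact h2 x hx
      · simp only [List.prod_cons]
        exact f_mul_f hz _ _
  have hJ : IsNilpotent J := by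
    refine ⟨k + 1, ?_⟩
    have : J ^ (k + 1) = Ideal.span ((f (ZMod p) z '' T) ^ (k + 1)) :=
      Submodule.span_pow (R := A) _ _
    rw [this, Ideal.zero_eq_bot, Ideal.span_eq_bot]
    intro a ha
    obtain ⟨l, h1, h2, rfl⟩ := hpow k a ha
    obtain ⟨t, l', rfl⟩ := List.exists_cons_of_length_eq_add_one h1
    rw [List.prod_cons, hk l' (by simpa using h1) (fun x hx => h2 x (List.mem_cons_of_mem _ hx)),
      hz, f_self]
  have hE := Pool.Agent.Helper723.Egg.eggert p (ZMod p) A J hJ
  -- upper bound for the dimension of `J`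
  let W : Submodule (ZMod p) A := Submodule.span (ZMod p) (f (ZMod p) z '' (T \ {z}))
  have hfW : ∀ t ∈ T, f (ZMod p) z t ∈ W := by
    intro t ht
    by_cases h : t = z
    · rw [h, f_self]; exact W.zero_mem
    · exact Submodule.subset_span ⟨t, ⟨ht, h⟩, rfl⟩
  have hmul1 : ∀ (n : N), ∀ w ∈ W, MonoidAlgebra.single n (1 : ZMod p) * w ∈ W := by
    intro n w hw
    induction hw using Submodule.span_induction with
    | mem x hx =>
      obtain ⟨t, ht, rfl⟩ := hx
      rw [single_mul_f hz]
      exact hfW _ (hT n t ht.1)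
    | zero => rw [mul_zero]; exact W.zero_mem
    | add x y _ _ hx hy => rw [mul_add]; exact W.add_mem hx hy
    | smul c x _ hx => rw [mul_smul_comm]; exact W.smul_mem c hx
  have hmul : ∀ (a : A), ∀ w ∈ W, a * w ∈ W := by
    intro a w hw
    induction a using MonoidAlgebra.induction_linear with
    | zero => rw [zero_mul]; exact W.zero_mem
    | add x y hx hy => rw [add_mul]; exact W.add_mem hx hy
    | single n c =>
      have : (MonoidAlgebra.single n c : A) = c • MonoidAlgebra.single n (1 : ZMod p) := by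
        simp [A]
      rw [this, smul_mul_assoc]
      exact W.smul_mem c (hmul1 n w hw)
  have hJW : Submodule.restrictScalars (ZMod p) J ≤ W := by
    intro x hx
    change x ∈ Ideal.span (f (ZMod p) z '' T) at hx
    induction hx using Submodule.span_induction with
    | mem x hx =>
      obtain ⟨t, ht, rfl⟩ := hx
      exact hfW t ht
    | zero => exact W.zero_mem
    | add x y _ _ hx hy => exact W.add_mem hx hy
    | smul c x _ hx => exact hmul c x hx
  have h1 : finrank (ZMod p) (Submodule.restrictScalars (ZMod p) J) ≤ (T \ {z}).ncard := by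
    refine (Submodule.finrank_mono hJW).trans ?_
    have hfin : (f (ZMod p) z '' (T \ {z})).Finite := (Set.toFinite _).image _
    have := hfin.fintype
    refine (finrank_span_le_card (f (ZMod p) z '' (T \ {z}))).trans ?_
    rw [← Set.ncard_eq_toFinset_card']
    exact Set.ncard_image_le (Set.toFinite _)
  have h2 : (((fun x => x ^ p) '' T) \ {z}).ncard ≤
      finrank (ZMod p) (Submodule.span (ZMod p) ((fun x : A => x ^ p) '' (J : Set A))) := by
    set U : Set N := ((fun x => x ^ p) '' T) \ {z} with hU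
    have hi := f_indep (F := ZMod p) z U (fun h => h.2 rfl)
    have := Fintype.ofFinite U
    have h3 := finrank_span_eq_card hi
    rw [← Nat.card_coe_set_eq, Nat.card_eq_fintype_card, ← h3]
    apply Submodule.finrank_mono
    apply Submodule.span_mono
    rintro _ ⟨⟨y, ⟨t, ht, rfl⟩, -⟩, rfl⟩
    refine ⟨f (ZMod p) z t, Ideal.subset_span ⟨t, ht, rfl⟩, ?_⟩
    obtain ⟨j, hj⟩ : ∃ j, p = j + 1 := ⟨p - 1, by have := hp.out.pos; omega⟩
    have := f_pow (F := ZMod p) hz t j
    rw [← hj] at this
    exact this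
  exact le_trans (Nat.mul_le_mul_left p h2) (hE.trans h1)

end prime

lemma prime_sub (p : ℕ) (hp : p.Prime) {M : Type} [CommMonoid M] [Finite M] (z : M)
    (hz : ∀ x, x * z = z) (T : Set M) (hzT : z ∈ T) (hT : ∀ x ∈ T, ∀ t ∈ T, x * t ∈ T) (k : ℕ)
    (hk : ∀ l : List M, l.length = k → (∀ x ∈ l, x ∈ T) → l.prod = z) :
    p * (((fun x => x ^ p) '' T) \ {z}).ncard ≤ (T \ {z}).ncard := by
  have : Fact p.Prime := ⟨hp⟩
  let N : Submonoid M :=
    { carrier := {x | x = 1 ∨ x ∈ T}
      one_mem' := Or.inl rfl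
      mul_mem' := by
        rintro a b (rfl | ha) hb
        · rwa [one_mul]
        · rcases hb with rfl | hb
          · rw [mul_one]; exact Or.inr ha
          · exact Or.inr (hT a ha b hb) }
  let z' : N := ⟨z, Or.inr hzT⟩
  let T' : Set N := {x | x.1 ∈ T}
  have h := prime_ideal p z' (fun x => Subtype.ext (hz x.1)) T' (by
    rintro ⟨x, rfl | hx⟩ t ht
    · show (1 : M) * t.1 ∈ T
      rw [one_mul]; exact ht
    · exact hT x hx t.1 ht) k (by
    intro l h1 h2
    apply Subtype.ext
    have := hk (l.map N.subtype) (by simpa using h1) (by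
      intro x hx
      obtain ⟨y, hy, rfl⟩ := List.mem_map.1 hx
      exact h2 y hy)
    rw [← map_list_prod] at this
    exact this)
  have e1 : (T \ {z}) = Subtype.val '' (T' \ {z'}) := by
    ext x
    constructor
    · rintro ⟨hx, hxz⟩
      exact ⟨⟨x, Or.inr hx⟩, ⟨hx, fun e => hxz (congrArg Subtype.val e)⟩, rfl⟩
    · rintro ⟨y, ⟨hy, hyz⟩, rfl⟩
      exact ⟨hy, fun e => hyz (Subtype.ext e)⟩
  have e2 : (((fun x => x ^ p) '' T) \ {z}) =
      Subtype.val '' (((fun x => x ^ p) '' T') \ {z'}) := by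
    ext x
    constructor
    · rintro ⟨⟨t, ht, rfl⟩, hxz⟩
      exact ⟨(⟨t, Or.inr ht⟩ : N) ^ p, ⟨⟨_, ht, rfl⟩, fun e => hxz (congrArg Subtype.val e)⟩, rfl⟩
    · rintro ⟨y, ⟨⟨t, ht, rfl⟩, hyz⟩, rfl⟩
      exact ⟨⟨t.1, ht, rfl⟩, fun e => hyz (Subtype.ext e)⟩
  rw [e1, e2, Set.ncard_image_of_injective _ Subtype.val_injective,
    Set.ncard_image_of_injective _ Subtype.val_injective]
  exact h

theorem all_sub {M : Type} [CommMonoid M] [Finite M] (z : M) (hz : ∀ x, x * z = z) (T : Set M)
    (hzT : z ∈ T) (hT : ∀ x ∈ T, ∀ t ∈ T, x * t ∈ T) (k : ℕ)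
    (hk : ∀ l : List M, l.length = k → (∀ x ∈ l, x ∈ T) → l.prod = z) (n : ℕ) (hn : 0 < n) :
    n * (((fun x => x ^ n) '' T) \ {z}).ncard ≤ (T \ {z}).ncard := by
  induction n using induction_on_primes with
  | zero => exact absurd hn (lt_irrefl 0)
  | one => simp
  | prime_mul p m hp ih =>
    have hm : 0 < m := Nat.pos_of_mul_pos_left hn
    have hpowT : ∀ t ∈ T, ∀ j : ℕ, t ^ (j + 1) ∈ T := by
      intro t ht j
      induction j with
      | zero => simpa using ht
      | succ j ihj => rw [pow_succ]; exact hT _ ihj _ ht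
    obtain ⟨j, rfl⟩ : ∃ j, m = j + 1 := ⟨m - 1, by omega⟩
    have h := prime_sub p hp z hz ((fun x => x ^ (j + 1)) '' T)
      ⟨z, hzT, by show z ^ (j + 1) = z; rw [pow_succ, hz]⟩
      (by
        rintro _ ⟨a, ha, rfl⟩ _ ⟨b, hb, rfl⟩
        exact ⟨a * b, hT a ha b hb, mul_pow a b (j + 1)⟩) k
      (by
        intro l h1 h2
        apply hk l h1
        intro x hx
        obtain ⟨t, ht, rfl⟩ := h2 x hx
        exact hpowT t ht j)
    have e : (fun x => x ^ p) '' ((fun x => x ^ (j + 1)) '' T) =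
        (fun x => x ^ (p * (j + 1))) '' T := by
      rw [Set.image_image]
      congr 1
      funext x
      rw [← pow_mul, mul_comm]
    rw [e] at h
    calc p * (j + 1) * (((fun x => x ^ (p * (j + 1))) '' T) \ {z}).ncard
        = (j + 1) * (p * (((fun x => x ^ (p * (j + 1))) '' T) \ {z}).ncard) := by ring
      _ ≤ (j + 1) * (((fun x => x ^ (j + 1)) '' T) \ {z}).ncard := Nat.mul_le_mul_left _ h
      _ ≤ _ := ih hm

end Pool.Agent.H514Z.SemiEggert
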